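import Pool.Agent.HamPaths6b8b27.Step

set_option autoImplicit false
set_option maxHeartbeats 4000000
set_option linter.unusedVariables false

/-!
Computable versions of the definitions of `Core`, written with the operations on natural numbers
which are evaluated quickly, and the check of a certificate.
-/

namespace Pool.Agent.HamPaths6b8b27

theorem cond_ble {α : Type} (a b : ℕ) (x y : α) :
    cond (Nat.ble a b) x y = if a ≤ b then x else y := by
  by_cases h : a ≤ b
  · rw [if_pos h, Nat.ble_eq.mpr h]; rfl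
  · have : Nat.ble a b = false := by
      cases hb : Nat.ble a b
      · rfl
      · exact absurd (Nat.ble_eq.mp hb) h
    rw [if_neg h, this]; rfl

theorem cond_beq {α : Type} (a b : ℕ) (x y : α) :
    cond (Nat.beq a b) x y = if a = b then x else y := by
  by_cases h : a = b
  · rw [if_pos h, Nat.beq_eq.mpr h]; rfl
  · have : Nat.beq a b = false := by
      cases hb : Nat.beq a b
      · rfl
      · exact absurd (Nat.beq_eq.mp hb) h
    rw [if_neg h, this]; rfl

def bsub (n v o : ℕ) : ℕ := cond (Nat.ble o v) (Nat.sub v o) (Nat.sub (Nat.add v n) o)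

def bnx (n i : ℕ) : ℕ := cond (Nat.beq (Nat.add i 1) n) 0 (Nat.add i 1)

def b1 (n v : ℕ) : ℕ :=
  cond (Nat.ble v 0) 0 (cond (Nat.ble v 1) (Nat.sub n 1) (cond (Nat.ble v 2) 3
  (cond (Nat.ble v 3) 4 (cond (Nat.ble (Nat.add v 3) n) (Nat.sub (Nat.add n 2) v)
  (cond (Nat.ble (Nat.add v 2) n) 2 1)))))

def b2 (n v : ℕ) : ℕ :=
  cond (Nat.ble v 0) 0 (cond (Nat.ble v 1) (Nat.sub n 6) (cond (Nat.ble v 2) (Nat.sub n 1)
  (cond (Nat.ble v 3) (Nat.sub n 2) (cond (Nat.ble v 4) (Nat.sub n 4)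
  (cond (Nat.ble (Nat.add v 3) n) (Nat.sub v 4)
  (cond (Nat.ble (Nat.add v 2) n) (Nat.sub n 3) (Nat.sub n 5)))))))

def b3 (n v : ℕ) : ℕ :=
  cond (Nat.ble v 0) 0 (cond (Nat.ble v 1) (Nat.sub n 3) (cond (Nat.ble v 2) 4
  (cond (Nat.ble v 3) (Nat.sub n 1) (cond (Nat.ble v 4) 1 (cond (Nat.ble v 5) (Nat.sub n 2)
  (cond (Nat.ble (Nat.add v 3) n) (Nat.sub v 1)
  (cond (Nat.ble (Nat.add v 2) n) 2 3)))))))

def bg (n k v : ℕ) : ℕ :=
  cond (Nat.ble v 0) 0 (cond (Nat.ble v 1) (Nat.sub (Nat.sub n k) 1)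
  (cond (Nat.ble (Nat.add v 2) k) (Nat.sub n v)
  (cond (Nat.ble (Nat.add v 1) k) (Nat.sub (Nat.sub n k) 2) (cond (Nat.ble v k) (Nat.sub n 1)
  (cond (Nat.ble v (Nat.add k 1)) (Nat.sub n k)
  (cond (Nat.ble (Nat.add v 2) n) (Nat.sub (Nat.sub v k) 1) (Nat.add (Nat.sub n k) 1)))))))

def bk (n k v : ℕ) : ℕ :=
  cond (Nat.ble k 1) (b1 n v) (cond (Nat.ble k 2) (b2 n v) (cond (Nat.ble k 3) (b3 n v) (bg n k v)))

theorem bsub_eq (n v o : ℕ) : bsub n v o = sub n v o := by
  unfold bsub sub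
  exact cond_ble _ _ _ _

theorem bnx_eq (n i : ℕ) : bnx n i = nx n i := by
  unfold bnx nx
  exact cond_beq _ _ _ _

theorem b1_eq (n v : ℕ) : b1 n v = r1 n v := by
  unfold b1 r1
  simp only [cond_ble]
  rfl

theorem b2_eq (n v : ℕ) : b2 n v = r2 n v := by
  unfold b2 r2
  simp only [cond_ble]
  rfl

theorem b3_eq (n v : ℕ) : b3 n v = r3 n v := by
  unfold b3 r3
  simp only [cond_ble]
  rfl

theorem bg_eq (n k v : ℕ) : bg n k v = rg n k v := by
  unfold bg rg
  simp only [cond_ble]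
  rfl

theorem bk_eq (n k v : ℕ) : bk n k v = rk n k v := by
  unfold bk rk
  simp only [cond_ble, b1_eq, b2_eq, b3_eq, bg_eq]

def bfr (n k u : ℕ) : Bool :=
  cond (Nat.ble k 3) (cond (Nat.ble (Nat.add k 3) u) (Nat.ble (Nat.add u 4) n) false)
    (cond (Nat.ble 2 u) (cond (Nat.ble (Nat.add u 3) k) true
      (cond (Nat.ble (Nat.add k 2) u) (Nat.ble (Nat.add u 3) n) false)) false)

theorem bfr_eq (n k u : ℕ) : bfr n k u = true ↔ fr n k u := by
  unfold bfr fr
  simp only [cond_ble, Nat.add_eq]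
  split_ifs <;> simp only [Nat.ble_eq, Bool.false_eq_true, false_iff, true_iff] <;> omega

def bFr (n k1 o k2 u : ℕ) : Bool := cond (bfr n k1 u) (bfr n k2 (bsub n u o)) false

theorem bFr_eq (n k1 o k2 u : ℕ) : bFr n k1 o k2 u = true ↔ Fr n k1 o k2 u := by
  unfold bFr Fr
  rw [← bfr_eq, ← bfr_eq, ← bsub_eq]
  cases bfr n k1 u <;> simp

/-- the `i`-th digit of `c` in base 32 -/
def dig (c i : ℕ) : ℕ := Nat.land (Nat.shiftRight c (Nat.mul 5 i)) 31

/-- bounded universal quantifier -/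
noncomputable def allb (g : ℕ → Bool) (n : ℕ) : Bool :=
  Nat.rec true (fun i ih => cond (g i) ih false) n

theorem allb_spec {g : ℕ → Bool} {n : ℕ} (h : allb g n = true) : ∀ i < n, g i = true := by
  induction n with
  | zero => intro i hi; omega
  | succ n ih =>
    have h' : cond (g n) (allb g n) false = true := h
    cases hg : g n with
    | false => rw [hg] at h'; exact absurd h' (by simp)
    | true =>
      rw [hg] at h'
      intro i hi
      rcases Nat.lt_succ_iff_lt_or_eq.mp hi with h1 | h1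
      · exact ih h' i h1
      · rw [h1]; exact hg

def badj (a b : ℕ) : Bool := cond (Nat.beq (Nat.add a 1) b) true (Nat.beq (Nat.add b 1) a)

theorem badj_eq (a b : ℕ) : badj a b = true ↔ (a + 1 = b ∨ b + 1 = a) := by
  unfold badj
  rw [cond_beq]
  split_ifs with h
  · have h' : a + 1 = b := h
    simp [h']
  · have h' : ¬ a + 1 = b := h
    rw [Nat.beq_eq]
    constructor
    · intro h2; exact Or.inr h2
    · rintro (h2 | h2)
      · exact absurd h2 h'
      · exact h2

/-- check of one position of the cycle -/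
def stepOK (n : ℕ) (r s : ℕ → ℕ) (c i a b : ℕ) : Bool :=
  cond (Nat.ble n a) false (cond (Nat.beq (dig c (Nat.add n a)) i)
    (cond (badj (r a) (r b)) true (badj (s a) (s b))) false)

/-- check of one free edge of the cycle -/
def freeOK (n : ℕ) (c u p q : ℕ) : Bool :=
  cond (Nat.ble n p) false (cond (Nat.ble n q) false (cond (Nat.beq (dig c p) u)
    (cond (Nat.beq (dig c q) (Nat.add u 1))
      (cond (Nat.beq (bnx n p) q) true (Nat.beq (bnx n q) p)) false) false))

noncomputable def hamOK (n : ℕ) (r s : ℕ → ℕ) (c : ℕ) : Bool :=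
  allb (fun i => stepOK n r s c i (dig c i) (dig c (bnx n i))) n

noncomputable def frOK (n : ℕ) (F : ℕ → Bool) (c : ℕ) : Bool :=
  allb (fun u => cond (F u) (freeOK n c u (dig c (Nat.add n u)) (dig c (Nat.add n (Nat.add u 1))))
    true) n

theorem hamOK_spec {n : ℕ} {r s : ℕ → ℕ} {c : ℕ} (h : hamOK n r s c = true) :
    (∀ i < n, dig c i < n) ∧ (∀ i < n, ∀ j < n, dig c i = dig c j → i = j) ∧
    (∀ i < n, Adj2 r s (dig c i) (dig c (nx n i))) := by
  have h1 := allb_spec h
  have key : ∀ i < n, dig c i < n ∧ dig c (n + dig c i) = i ∧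
      Adj2 r s (dig c i) (dig c (nx n i)) := by
    intro i hi
    have h2 := h1 i hi
    simp only [bnx_eq] at h2
    unfold stepOK at h2
    rw [cond_ble, cond_beq] at h2
    split_ifs at h2 with h3 h4
    refine ⟨by omega, h4, ?_⟩
    unfold Adj2
    cases h5 : badj (r (dig c i)) (r (dig c (nx n i))) with
    | true => exact Or.inl ((badj_eq _ _).mp h5)
    | false =>
      rw [h5] at h2
      exact Or.inr ((badj_eq _ _).mp h2)
  refine ⟨fun i hi => (key i hi).1, ?_, fun i hi => (key i hi).2.2⟩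
  intro i hi j hj hij
  rw [← (key i hi).2.1, ← (key j hj).2.1, hij]

theorem frOK_spec {n : ℕ} {F : ℕ → Bool} {c : ℕ} (h : frOK n F c = true) :
    ∀ u < n, F u = true → ∃ i < n, (dig c i = u ∧ dig c (nx n i) = u + 1) ∨
      (dig c i = u + 1 ∧ dig c (nx n i) = u) := by
  intro u hu hF
  have h2 := allb_spec h u hu
  rw [hF] at h2
  have h3 : freeOK n c u (dig c (Nat.add n u)) (dig c (Nat.add n (Nat.add u 1))) = true := h2
  generalize dig c (Nat.add n u) = p at h3
  generalize dig c (Nat.add n (Nat.add u 1)) = q at h3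
  unfold freeOK at h3
  simp only [bnx_eq] at h3
  rw [cond_ble, cond_ble, cond_beq, cond_beq, cond_beq] at h3
  split_ifs at h3 with a1 a2 a3 a4 a5
  · exact ⟨p, by omega, Or.inl ⟨a3, by rw [a5]; exact a4⟩⟩
  · rw [Nat.beq_eq] at h3
    exact ⟨q, by omega, Or.inr ⟨a4, by rw [h3]; exact a3⟩⟩

noncomputable def chk (n k1 o k2 c : ℕ) : Bool :=
  cond (hamOK n (bk n k1) (fun v => bk n k2 (bsub n v o)) c) (frOK n (bFr n k1 o k2) c) false

theorem chk_spec {n k1 o k2 c : ℕ} (hk : k1 + 4 ≤ n) (h : chk n k1 o k2 c = true) :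
    Good n k1 o k2 := by
  unfold chk at h
  cases h1 : hamOK n (bk n k1) (fun v => bk n k2 (bsub n v o)) c with
  | false => rw [h1] at h; exact absurd h (by simp)
  | true =>
    rw [h1] at h
    have h2 : frOK n (bFr n k1 o k2) c = true := h
    obtain ⟨a1, a2, a3⟩ := hamOK_spec h1
    refine ⟨dig c, a1, a2, ?_, ?_⟩
    · have e1 : bk n k1 = rk n k1 := funext (bk_eq n k1)
      have e2 : (fun v => bk n k2 (bsub n v o)) = (fun v => rk n k2 (sub n v o)) :=
        funext (fun v => by rw [bk_eq, bsub_eq])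
      rw [e1, e2] at a3
      exact a3
    · intro u hu
      have hun : u < n := by
        have := hu.1
        unfold fr at this
        omega
      exact frOK_spec h2 u hun ((bFr_eq _ _ _ _ _).mpr hu)

def comp (n k1 o k2 w : ℕ) : Bool := cond (bFr n k1 o k2 (Nat.sub w 1)) (bFr n k1 o k2 w) false

def cands (n k1 o k2 : ℕ) : Bool :=
  cond (comp n k1 o k2 3) true (cond (comp n k1 o k2 (Nat.add k1 3)) true
  (cond (comp n k1 o k2 (Nat.add k1 4)) true
  (cond (comp n k1 o k2 (Nat.mod (Nat.add o 3) n)) true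
  (cond (comp n k1 o k2 (Nat.mod (Nat.add (Nat.add o k2) 3) n)) true
  (comp n k1 o k2 (Nat.mod (Nat.add (Nat.add o k2) 4) n))))))

theorem comp_spec {n k1 o k2 w : ℕ} (h : comp n k1 o k2 w = true) :
    Fr n k1 o k2 (w-1) ∧ Fr n k1 o k2 w := by
  unfold comp at h
  cases h1 : bFr n k1 o k2 (Nat.sub w 1) with
  | false => rw [h1] at h; exact absurd h (by simp)
  | true =>
    rw [h1] at h
    exact ⟨(bFr_eq _ _ _ _ _).mp h1, (bFr_eq _ _ _ _ _).mp h⟩

theorem cond_true_or {a b : Bool} (h : cond a true b = true) : a = true ∨ b = true := by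
  cases a
  · exact Or.inr h
  · exact Or.inl rfl

theorem cands_spec {n k1 o k2 : ℕ} (h : cands n k1 o k2 = true) :
    ∃ w, Fr n k1 o k2 (w-1) ∧ Fr n k1 o k2 w := by
  unfold cands at h
  rcases cond_true_or h with h | h
  · exact ⟨_, comp_spec h⟩
  rcases cond_true_or h with h | h
  · exact ⟨_, comp_spec h⟩
  rcases cond_true_or h with h | h
  · exact ⟨_, comp_spec h⟩
  rcases cond_true_or h with h | h
  · exact ⟨_, comp_spec h⟩
  rcases cond_true_or h with h | h
  · exact ⟨_, comp_spec h⟩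
  · exact ⟨_, comp_spec h⟩

/-- the configuration needs no certificate -/
def skip (n k1 o k2 : ℕ) : Bool :=
  cond (cond (Nat.beq o 0) (Nat.beq k1 k2) false) true
  (cond (cond (Nat.beq (Nat.add k1 k2) n) (Nat.beq o k1) false) true
  (cond (Nat.ble 10 n) (cands n k1 o k2) false))

theorem skip_spec {n k1 o k2 : ℕ} (hv : Valid n k1 o k2) (h : skip n k1 o k2 = true) :
    10 ≤ n ∧ ∃ w, Fr n k1 o k2 (w-1) ∧ Fr n k1 o k2 w := by
  obtain ⟨v1, v2, v3, v4, v5, v6, v7⟩ := hv
  unfold skip at h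
  rcases cond_true_or h with h | h
  · exfalso
    rw [cond_beq] at h
    split_ifs at h with h1
    exact v6 ⟨h1, Nat.beq_eq.mp h⟩
  rcases cond_true_or h with h | h
  · exfalso
    rw [cond_beq] at h
    split_ifs at h with h1
    exact v7 ⟨h1, Nat.beq_eq.mp h⟩
  rw [cond_ble] at h
  split_ifs at h with h1
  exact ⟨h1, cands_spec h⟩

/-- traversal of the configurations with first parameter `k1`, the list of certificates is `c` -/
noncomputable def run (n k1 : ℕ) (N : ℕ) : ℕ → Bool :=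
  Nat.rec (fun _ => true) (fun i ih c =>
    cond (skip n k1 (Nat.mod i n) (Nat.add (Nat.div i n) 1)) (ih c)
      (cond (chk n k1 (Nat.mod i n) (Nat.add (Nat.div i n) 1)
          (Nat.mod c (Nat.shiftLeft 1 (Nat.mul 10 n))))
        (ih (Nat.shiftRight c (Nat.mul 10 n))) false)) N

theorem run_spec {n k1 N : ℕ} : ∀ {c : ℕ}, run n k1 N c = true → ∀ i < N,
    skip n k1 (i % n) (i / n + 1) = true ∨ ∃ c', chk n k1 (i % n) (i / n + 1) c' = true := by
  induction N with
  | zero => intro c _ i hi; omega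
  | succ N ih =>
    intro c h i hi
    have h' : cond (skip n k1 (N % n) (N / n + 1)) (run n k1 N c)
      (cond (chk n k1 (N % n) (N / n + 1) (Nat.mod c (Nat.shiftLeft 1 (Nat.mul 10 n))))
        (run n k1 N (Nat.shiftRight c (Nat.mul 10 n))) false) = true := h
    cases h1 : skip n k1 (N % n) (N / n + 1) with
    | true =>
      rw [h1] at h'
      rcases Nat.lt_succ_iff_lt_or_eq.mp hi with h2 | h2
      · exact ih h' i h2
      · rw [h2]; exact Or.inl h1
    | false =>
      rw [h1] at h'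
      cases h3 : chk n k1 (N % n) (N / n + 1) (Nat.mod c (Nat.shiftLeft 1 (Nat.mul 10 n))) with
      | false => rw [h3] at h'; exact absurd h' (by simp)
      | true =>
        rw [h3] at h'
        rcases Nat.lt_succ_iff_lt_or_eq.mp hi with h2 | h2
        · exact ih h' i h2
        · rw [h2]; exact Or.inr ⟨_, h3⟩

theorem run_good {n k1 c : ℕ} (hn : 9 ≤ n) (h : run n k1 (n * (n - 4)) c = true) (o k2 : ℕ)
    (hv : Valid n k1 o k2) :
    (10 ≤ n ∧ ∃ w, Fr n k1 o k2 (w-1) ∧ Fr n k1 o k2 w) ∨ Good n k1 o k2 := by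
  have hv' := hv
  obtain ⟨v1, v2, v3, v4, v5, v6, v7⟩ := hv
  obtain ⟨k, rfl⟩ : ∃ k, k2 = k + 1 := ⟨k2 - 1, by omega⟩
  have hi : n * k + o < n * (n - 4) := by
    have : n * (k + 1) ≤ n * (n - 4) := Nat.mul_le_mul_left n (by omega)
    rw [Nat.mul_succ] at this
    omega
  have e1 : (n * k + o) % n = o := by
    rw [Nat.mul_add_mod, Nat.mod_eq_of_lt v5]
  have e2 : (n * k + o) / n = k := by
    rw [Nat.mul_add_div (by omega), Nat.div_eq_of_lt v5, Nat.add_zero]
  rcases run_spec h _ hi with h1 | ⟨c', h1⟩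
  · rw [e1, e2] at h1
    exact Or.inl (skip_spec hv' h1)
  · rw [e1, e2] at h1
    exact Or.inr (chk_spec v2 h1)

end Pool.Agent.HamPaths6b8b27
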