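import Mathlib

set_option autoImplicit false
set_option maxHeartbeats 4000000

/-!
Core combinatorics for the family of Hamiltonian paths of MP_6b8b27_co.

`rk n k v` is the position of the vertex `v` in the path `P(0,k)` of the family on `n` vertices,
`sub n v o` is `v - o` modulo `n`.
-/

namespace Pool.Agent.HamPaths6b8b27

/-- `v - o` modulo `n` (for `v, o < n`) -/
def sub (n v o : ℕ) : ℕ := if o ≤ v then v - o else v + n - o

/-- insertion of a new point `w` -/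
def ins (w v : ℕ) : ℕ := if v < w then v else v + 1

/-- deletion of the point `w` -/
def del (w v : ℕ) : ℕ := if w < v then v - 1 else v

/-- cyclic successor -/
def nx (n i : ℕ) : ℕ := if i + 1 = n then 0 else i + 1

/-- positions in the path of the pair `{0,1}` -/
def r1 (n v : ℕ) : ℕ :=
  if v ≤ 0 then 0 else if v ≤ 1 then n - 1 else if v ≤ 2 then 3 else if v ≤ 3 then 4
  else if v + 3 ≤ n then n + 2 - v else if v + 2 ≤ n then 2 else 1

/-- positions in the path of the pair `{0,2}` -/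
def r2 (n v : ℕ) : ℕ :=
  if v ≤ 0 then 0 else if v ≤ 1 then n - 6 else if v ≤ 2 then n - 1 else if v ≤ 3 then n - 2
  else if v ≤ 4 then n - 4 else if v + 3 ≤ n then v - 4 else if v + 2 ≤ n then n - 3 else n - 5

/-- positions in the path of the pair `{0,3}` -/
def r3 (n v : ℕ) : ℕ :=
  if v ≤ 0 then 0 else if v ≤ 1 then n - 3 else if v ≤ 2 then 4 else if v ≤ 3 then n - 1
  else if v ≤ 4 then 1 else if v ≤ 5 then n - 2 else if v + 3 ≤ n then v - 1
  else if v + 2 ≤ n then 2 else 3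

/-- positions in the path of the pair `{0,k}`, `4 ≤ k ≤ n - 4` -/
def rg (n k v : ℕ) : ℕ :=
  if v ≤ 0 then 0 else if v ≤ 1 then n - k - 1 else if v + 2 ≤ k then n - v
  else if v + 1 ≤ k then n - k - 2 else if v ≤ k then n - 1 else if v ≤ k + 1 then n - k
  else if v + 2 ≤ n then v - k - 1 else n - k + 1

/-- position of the vertex `v` in the path of the pair `{0, k}` -/
def rk (n k v : ℕ) : ℕ :=
  if k ≤ 1 then r1 n v else if k ≤ 2 then r2 n v else if k ≤ 3 then r3 n v else rg n k v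

/-- the edge `u, u+1` is free for the path of the pair `{0,k}` -/
def fr (n k u : ℕ) : Prop :=
  (k ≤ 3 ∧ k + 3 ≤ u ∧ u + 4 ≤ n) ∨ (4 ≤ k ∧ ((2 ≤ u ∧ u + 3 ≤ k) ∨ (k + 2 ≤ u ∧ u + 3 ≤ n)))

/-- inverse of `r1` -/
def p1 (n j : ℕ) : ℕ :=
  if j ≤ 0 then 0 else if j ≤ 1 then n - 1 else if j ≤ 2 then n - 2 else if j ≤ 3 then 2
  else if j ≤ 4 then 3 else if j + 2 ≤ n then n + 2 - j else 1

/-- inverse of `r2` -/
def p2 (n j : ℕ) : ℕ :=
  if j ≤ 0 then 0 else if j + 7 ≤ n then j + 4 else if j + 6 ≤ n then 1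
  else if j + 5 ≤ n then n - 1 else if j + 4 ≤ n then 4 else if j + 3 ≤ n then n - 2
  else if j + 2 ≤ n then 3 else 2

/-- inverse of `r3` -/
def p3 (n j : ℕ) : ℕ :=
  if j ≤ 0 then 0 else if j ≤ 1 then 4 else if j ≤ 2 then n - 2 else if j ≤ 3 then n - 1
  else if j ≤ 4 then 2 else if j + 4 ≤ n then j + 1 else if j + 3 ≤ n then 1
  else if j + 2 ≤ n then 5 else 3

/-- inverse of `rg` -/
def pg (n k j : ℕ) : ℕ :=
  if j ≤ 0 then 0 else if j + k + 3 ≤ n then j + k + 1 else if j + k + 2 ≤ n then k - 1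
  else if j + k + 1 ≤ n then 1 else if j + k ≤ n then k + 1 else if j + k ≤ n + 1 then n - 1
  else if j + 2 ≤ n then n - j else k

theorem p1_r1 {n v : ℕ} (hn : 9 ≤ n) (hv : v < n) : p1 n (r1 n v) = v ∧ r1 n v < n := by
  unfold r1
  split_ifs <;> refine ⟨?_, by omega⟩ <;> unfold p1 <;> split_ifs <;> omega

theorem p2_r2 {n v : ℕ} (hn : 9 ≤ n) (hv : v < n) : p2 n (r2 n v) = v ∧ r2 n v < n := by
  unfold r2
  split_ifs <;> refine ⟨?_, by omega⟩ <;> unfold p2 <;> split_ifs <;> omega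

theorem p3_r3 {n v : ℕ} (hn : 9 ≤ n) (hv : v < n) : p3 n (r3 n v) = v ∧ r3 n v < n := by
  unfold r3
  split_ifs <;> refine ⟨?_, by omega⟩ <;> unfold p3 <;> split_ifs <;> omega

theorem pg_rg {n k v : ℕ} (hk : 4 ≤ k) (hk' : k + 4 ≤ n) (hv : v < n) :
    pg n k (rg n k v) = v ∧ rg n k v < n := by
  unfold rg
  split_ifs <;> refine ⟨?_, by omega⟩ <;> unfold pg <;> split_ifs <;> omega

theorem rk_lt {n k v : ℕ} (hn : 9 ≤ n) (hk' : k + 4 ≤ n) (hv : v < n) :
    rk n k v < n := by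
  unfold rk
  split_ifs with h1 h2 h3
  · exact (p1_r1 hn hv).2
  · exact (p2_r2 hn hv).2
  · exact (p3_r3 hn hv).2
  · exact (pg_rg (by omega) hk' hv).2

theorem rk_inj {n k u v : ℕ} (hn : 9 ≤ n) (hk' : k + 4 ≤ n) (hu : u < n) (hv : v < n)
    (h : rk n k u = rk n k v) : u = v := by
  unfold rk at h
  split_ifs at h with h1 h2 h3
  · rw [← (p1_r1 hn hu).1, h, (p1_r1 hn hv).1]
  · rw [← (p2_r2 hn hu).1, h, (p2_r2 hn hv).1]
  · rw [← (p3_r3 hn hu).1, h, (p3_r3 hn hv).1]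
  · rw [← (pg_rg (by omega) hk' hu).1, h, (pg_rg (by omega) hk' hv).1]

end Pool.Agent.HamPaths6b8b27
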