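import Pool.Agent.HamPaths6b8b27.Step

set_option autoImplicit false
set_option maxHeartbeats 4000000
set_option linter.unusedVariables false

namespace Pool.Agent.HamPaths6b8b27

/-- the positions `x` such that not both of the edges `x-1, x` and `x, x+1` are free -/
def badL (n k : ℕ) : List ℕ :=
  if k ≤ 3 then [n-3, n-2, n-1, 0, 1, 2, 3, 4, 5, 6]
  else [n-2, n-1, 0, 1, 2, k-2, k-1, k, k+1, k+2]

theorem badL_length (n k : ℕ) : (badL n k).length = 10 := by
  unfold badL
  split_ifs <;> rfl

theorem badL_spec {n k x : ℕ} (hk : 1 ≤ k) (hx : x < n) (h : x ∉ badL n k) :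
    fr n k (x-1) ∧ fr n k x ∧ 1 ≤ x := by
  unfold badL at h
  unfold fr
  split_ifs at h with h3
  · simp only [List.mem_cons, List.not_mem_nil, or_false, not_or] at h
    omega
  · simp only [List.mem_cons, List.not_mem_nil, or_false, not_or] at h
    omega

theorem exists_w {n k1 o k2 : ℕ} (hn : 21 ≤ n) (hv : Valid n k1 o k2) :
    ∃ w, Fr n k1 o k2 (w-1) ∧ Fr n k1 o k2 w := by
  obtain ⟨v1, v2, v3, v4, v5, v6, v7⟩ := hv
  by_contra hcon
  push Not at hcon
  have hsub : Finset.range n ⊆
      (badL n k1).toFinset ∪ (Finset.range n).filter (fun w => sub n w o ∈ badL n k2) := by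
    intro w hw
    rw [Finset.mem_range] at hw
    rw [Finset.mem_union, List.mem_toFinset, Finset.mem_filter, Finset.mem_range]
    by_contra hc
    push Not at hc
    obtain ⟨c1, c2⟩ := hc
    obtain ⟨f1, f2, f3⟩ := badL_spec v1 hw c1
    have hs : sub n w o < n := by unfold sub; split_ifs <;> omega
    obtain ⟨g1, g2, g3⟩ := badL_spec v3 hs (c2 hw)
    have e : sub n (w-1) o = sub n w o - 1 := by
      unfold sub at *
      split_ifs at * <;> omega
    exact hcon w ⟨f1, by rw [e]; exact g1⟩ ⟨f2, g2⟩
  have c0 := Finset.card_le_card hsub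
  have c1 := Finset.card_union_le (badL n k1).toFinset
    ((Finset.range n).filter (fun w => sub n w o ∈ badL n k2))
  have c2 := List.toFinset_card_le (badL n k1)
  have c3 : ((Finset.range n).filter (fun w => sub n w o ∈ badL n k2)).card ≤
      (badL n k2).toFinset.card := by
    apply Finset.card_le_card_of_injOn (fun w => sub n w o)
    · intro w hw
      have hw' := Finset.mem_coe.mp hw
      rw [Finset.mem_filter] at hw'
      exact Finset.mem_coe.mpr (List.mem_toFinset.mpr hw'.2)
    · intro a ha b hb hab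
      have ha' := Finset.mem_coe.mp ha
      have hb' := Finset.mem_coe.mp hb
      rw [Finset.mem_filter, Finset.mem_range] at ha' hb'
      have hab' : sub n a o = sub n b o := hab
      unfold sub at hab'
      split_ifs at hab' <;> omega
  have c4 := List.toFinset_card_le (badL n k2)
  rw [badL_length] at c2 c4
  rw [Finset.card_range] at c0
  omega

theorem good_all
    (base : ∀ n k1 o k2, 9 ≤ n → n ≤ 20 → Valid n k1 o k2 →
      (10 ≤ n ∧ ∃ w, Fr n k1 o k2 (w-1) ∧ Fr n k1 o k2 w) ∨ Good n k1 o k2) :
    ∀ n, 9 ≤ n → ∀ k1 o k2, Valid n k1 o k2 → Good n k1 o k2 := by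
  intro n hn
  induction n, hn using Nat.le_induction with
  | base =>
    intro k1 o k2 hv
    rcases base 9 k1 o k2 le_rfl (by omega) hv with h | h
    · omega
    · exact h
  | succ n hn ih =>
    intro k1 o k2 hv
    have key : (∃ w, Fr (n+1) k1 o k2 (w-1) ∧ Fr (n+1) k1 o k2 w) ∨ Good (n+1) k1 o k2 := by
      by_cases h : n + 1 ≤ 20
      · rcases base (n+1) k1 o k2 (by omega) h hv with h | h
        · exact Or.inl h.2
        · exact Or.inr h
      · exact Or.inl (exists_w (by omega) hv)
    rcases key with ⟨w, h1, h2⟩ | h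
    · exact step hn hv h1 h2 (ih _ _ _ (valid_del hn hv h1 h2).1)
    · exact h

end Pool.Agent.HamPaths6b8b27
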