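import Pool.Agent.HamPaths6b8b27.Core

set_option autoImplicit false
set_option maxHeartbeats 4000000
set_option linter.unusedVariables false

namespace Pool.Agent.HamPaths6b8b27

/-- adjacency in the union of the two paths with position functions `r` and `s` -/
def Adj2 (r s : ℕ → ℕ) (u v : ℕ) : Prop :=
  (r u + 1 = r v ∨ r v + 1 = r u) ∨ (s u + 1 = s v ∨ s v + 1 = s u)

/-- the union of the paths `r`, `s` has a Hamiltonian cycle containing all the edges `u, u+1`
with `F u` -/
def HC (n : ℕ) (r s : ℕ → ℕ) (F : ℕ → Prop) : Prop :=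
  ∃ f : ℕ → ℕ, (∀ i < n, f i < n) ∧ (∀ i < n, ∀ j < n, f i = f j → i = j) ∧
    (∀ i < n, Adj2 r s (f i) (f (nx n i))) ∧
    (∀ u, F u → ∃ i < n, (f i = u ∧ f (nx n i) = u + 1) ∨ (f i = u + 1 ∧ f (nx n i) = u))

/-- `r'` is obtained from `r` by inserting the vertex `w` into the edge `w - 1, w` -/
def Ext (n w : ℕ) (r r' : ℕ → ℕ) : Prop :=
  (∀ v < n, r' (ins w v) = ins (r' w) (r v)) ∧
    ((r (w-1) + 1 = r' w ∧ r w = r' w) ∨ (r w + 1 = r' w ∧ r (w-1) = r' w))

theorem ext_adj {n w : ℕ} {r r' : ℕ → ℕ} (hw1 : 1 ≤ w) (hwn : w < n) (h : Ext n w r r')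
    (inj : ∀ u < n, ∀ v < n, r u = r v → u = v) {u v : ℕ} (hu : u < n) (hv : v < n)
    (huv : r u + 1 = r v ∨ r v + 1 = r u) (h1 : ¬ (u + 1 = w ∧ v = w)) (h2 : ¬ (u = w ∧ v + 1 = w)) :
    r' (ins w u) + 1 = r' (ins w v) ∨ r' (ins w v) + 1 = r' (ins w u) := by
  obtain ⟨ha, hb⟩ := h
  rw [ha u hu, ha v hv]
  have k1 : r u = r (w-1) → u + 1 = w := fun e => by
    have := inj u hu (w-1) (by omega) e
    omega
  have k2 : r v = r (w-1) → v + 1 = w := fun e => by
    have := inj v hv (w-1) (by omega) e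
    omega
  have k3 : r u = r w → u = w := fun e => inj u hu w hwn e
  have k4 : r v = r w → v = w := fun e => inj v hv w hwn e
  generalize r' w = p at *
  generalize r (w-1) = a at *
  generalize r w = b at *
  generalize r u = x at *
  generalize r v = y at *
  unfold ins
  split_ifs <;> omega

theorem ext_w {n w : ℕ} {r r' : ℕ → ℕ} (hw1 : 1 ≤ w) (hwn : w < n) (h : Ext n w r r') :
    (r' (w-1) + 1 = r' w ∨ r' w + 1 = r' (w-1)) ∧ (r' (w+1) + 1 = r' w ∨ r' w + 1 = r' (w+1)) := by
  obtain ⟨ha, hb⟩ := h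
  have e1 := ha (w-1) (by omega)
  have e2 := ha w hwn
  have f1 : ins w (w-1) = w - 1 := by unfold ins; split_ifs <;> omega
  have f2 : ins w w = w + 1 := by unfold ins; split_ifs <;> omega
  rw [f1] at e1
  rw [f2] at e2
  rw [e1, e2]
  generalize r' w = p at *
  generalize r (w-1) = a at *
  generalize r w = b at *
  unfold ins
  split_ifs <;> omega

theorem HC_ins {n w : ℕ} {r s r' s' : ℕ → ℕ} {F F' : ℕ → Prop} (hn : 3 ≤ n) (hw1 : 1 ≤ w)
    (hwn : w < n) (hr : Ext n w r r') (hs : Ext n w s s')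
    (injr : ∀ u < n, ∀ v < n, r u = r v → u = v) (injs : ∀ u < n, ∀ v < n, s u = s v → u = v)
    (hF : F (w-1))
    (hF' : ∀ u, F' u → u + 1 = w ∨ u = w ∨ (u + 1 < w ∧ F u) ∨ (w < u ∧ F (u-1)))
    (h : HC n r s F) : HC (n+1) r' s' F' := by
  obtain ⟨f, hlt, hinj, hadj, hfree⟩ := h
  obtain ⟨i0, hi0, hedge⟩ := hfree _ hF
  rw [Nat.sub_add_cancel hw1] at hedge
  have hnx : ∀ i < n, nx n i < n := fun i hi => by unfold nx; split_ifs <;> omega
  -- adjacency away from i0
  have key : ∀ i < n, i ≠ i0 → Adj2 r' s' (ins w (f i)) (ins w (f (nx n i))) := by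
    intro i hi hne
    have hA := hadj i hi
    have hi' := hnx i hi
    have hi0' := hnx i0 hi0
    have ne1 : ¬ (f i + 1 = w ∧ f (nx n i) = w) := by
      rintro ⟨e1, e2⟩
      rcases hedge with ⟨a1, a2⟩ | ⟨a1, a2⟩
      · exact hne (hinj i hi i0 hi0 (by omega))
      · have b1 := hinj i hi (nx n i0) hi0' (by omega)
        have b2 := hinj (nx n i) hi' i0 hi0 (by omega)
        rw [b1] at b2
        unfold nx at b2
        split_ifs at b2 <;> omega
    have ne2 : ¬ (f i = w ∧ f (nx n i) + 1 = w) := by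
      rintro ⟨e1, e2⟩
      rcases hedge with ⟨a1, a2⟩ | ⟨a1, a2⟩
      · have b1 := hinj i hi (nx n i0) hi0' (by omega)
        have b2 := hinj (nx n i) hi' i0 hi0 (by omega)
        rw [b1] at b2
        unfold nx at b2
        split_ifs at b2 <;> omega
      · exact hne (hinj i hi i0 hi0 (by omega))
    rcases hA with hA | hA
    · exact Or.inl (ext_adj hw1 hwn hr injr (hlt i hi) (hlt _ hi') hA ne1 ne2)
    · exact Or.inr (ext_adj hw1 hwn hs injs (hlt i hi) (hlt _ hi') hA ne1 ne2)
  have hw := ext_w hw1 hwn hr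
  have iw1 : ins w (w-1) = w - 1 := by unfold ins; split_ifs <;> omega
  have iw2 : ins w w = w + 1 := by unfold ins; split_ifs <;> omega
  have hfi0 : Adj2 r' s' (ins w (f i0)) w := by
    rcases hedge with ⟨a1, a2⟩ | ⟨a1, a2⟩
    · rw [a1, iw1]; exact Or.inl hw.1
    · rw [a1, iw2]; exact Or.inl hw.2
  have hfi1 : Adj2 r' s' w (ins w (f (nx n i0))) := by
    rcases hedge with ⟨a1, a2⟩ | ⟨a1, a2⟩
    · rw [a2, iw2]; exact Or.inl (Or.symm hw.2)
    · rw [a2, iw1]; exact Or.inl (Or.symm hw.1)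
  have insne : ∀ x, ins w x ≠ w := fun x => by unfold ins; split_ifs <;> omega
  have insinj : ∀ x y, ins w x = ins w y → x = y := fun x y => by
    unfold ins; split_ifs <;> omega
  have inslt : ∀ x, x < n → ins w x < n + 1 := fun x hx => by unfold ins; split_ifs <;> omega
  -- the new cycle
  set g : ℕ → ℕ := fun i => if i ≤ i0 then ins w (f i) else if i = i0 + 1 then w else ins w (f (i-1))
    with hg
  have g1 : ∀ i, i ≤ i0 → g i = ins w (f i) := fun i hi => by simp only [hg]; rw [if_pos hi]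
  have g2 : g (i0+1) = w := by simp only [hg]; rw [if_neg (by omega)]; simp
  have g3 : ∀ i, i0 + 1 < i → g i = ins w (f (i-1)) := fun i hi => by
    simp only [hg]; rw [if_neg (by omega), if_neg (by omega)]
  have n1 : ∀ i, i < i0 → nx (n+1) i = i + 1 ∧ nx n i = i + 1 := fun i hi => by
    unfold nx; constructor <;> (split_ifs <;> omega)
  have n2 : nx (n+1) i0 = i0 + 1 := by unfold nx; split_ifs <;> omega
  -- successor of position i0+1
  have gn : g (nx (n+1) (i0+1)) = ins w (f (nx n i0)) := by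
    by_cases hc : i0 + 1 = n
    · have e1 : nx (n+1) (i0+1) = 0 := by unfold nx; split_ifs <;> omega
      have e2 : nx n i0 = 0 := by unfold nx; split_ifs <;> omega
      rw [e1, e2, g1 0 (by omega)]
    · have e1 : nx (n+1) (i0+1) = i0 + 2 := by unfold nx; split_ifs <;> omega
      have e2 : nx n i0 = i0 + 1 := by unfold nx; split_ifs <;> omega
      rw [e1, e2, g3 (i0+2) (by omega)]
      rfl
  -- successor of later positions
  have gl : ∀ i, i0 < i → i < n → g (i+1) = ins w (f i) ∧ g (nx (n+1) (i+1)) = ins w (f (nx n i)) := by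
    intro i h1 h2
    refine ⟨by rw [g3 (i+1) (by omega)]; rfl, ?_⟩
    by_cases hc : i + 1 = n
    · have e1 : nx (n+1) (i+1) = 0 := by unfold nx; split_ifs <;> omega
      have e2 : nx n i = 0 := by unfold nx; split_ifs <;> omega
      rw [e1, e2, g1 0 (by omega)]
    · have e1 : nx (n+1) (i+1) = i + 2 := by unfold nx; split_ifs <;> omega
      have e2 : nx n i = i + 1 := by unfold nx; split_ifs <;> omega
      rw [e1, e2, g3 (i+2) (by omega)]
      rfl
  have ge : ∀ i, i < i0 → g i = ins w (f i) ∧ g (nx (n+1) i) = ins w (f (nx n i)) := by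
    intro i h1
    obtain ⟨e1, e2⟩ := n1 i h1
    rw [e1, e2]
    exact ⟨g1 i (by omega), g1 (i+1) (by omega)⟩
  refine ⟨g, ?_, ?_, ?_, ?_⟩
  · intro i hi
    rcases lt_trichotomy i (i0+1) with h1 | h1 | h1
    · rw [g1 i (by omega)]; exact inslt _ (hlt i (by omega))
    · rw [h1, g2]; omega
    · rw [g3 i h1]; exact inslt _ (hlt (i-1) (by omega))
  · intro i hi j hj hij
    rcases lt_trichotomy i (i0+1) with h1 | h1 | h1 <;> rcases lt_trichotomy j (i0+1) with h2 | h2 | h2
    · rw [g1 i (by omega), g1 j (by omega)] at hij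
      exact hinj i (by omega) j (by omega) (insinj _ _ hij)
    · rw [g1 i (by omega), h2, g2] at hij
      exact absurd hij (insne _)
    · rw [g1 i (by omega), g3 j h2] at hij
      have := hinj i (by omega) (j-1) (by omega) (insinj _ _ hij)
      omega
    · rw [g1 j (by omega), h1, g2] at hij
      exact absurd hij.symm (insne _)
    · omega
    · rw [h1, g2, g3 j h2] at hij
      exact absurd hij.symm (insne _)
    · rw [g3 i h1, g1 j (by omega)] at hij
      have := hinj (i-1) (by omega) j (by omega) (insinj _ _ hij)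
      omega
    · rw [g3 i h1, h2, g2] at hij
      exact absurd hij (insne _)
    · rw [g3 i h1, g3 j h2] at hij
      have := hinj (i-1) (by omega) (j-1) (by omega) (insinj _ _ hij)
      omega
  · intro i hi
    rcases lt_trichotomy i i0 with h1 | h1 | h1
    · obtain ⟨e1, e2⟩ := ge i h1
      rw [e1, e2]
      exact key i (by omega) (by omega)
    · rw [h1, n2, g2, g1 i0 le_rfl]
      exact hfi0
    · by_cases h2 : i = i0 + 1
      · rw [h2, gn, g2]
        exact hfi1
      · obtain ⟨j, rfl⟩ : ∃ j, i = j + 1 := ⟨i - 1, by omega⟩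
        obtain ⟨e1, e2⟩ := gl j (by omega) (by omega)
        rw [e1, e2]
        exact key j (by omega) (by omega)
  · intro u hu
    -- edges of f other than i0 survive
    have surv : ∀ x y, F x → x ≠ w - 1 → ins w x = y → ins w (x+1) = y + 1 →
        ∃ i < n + 1, (g i = y ∧ g (nx (n+1) i) = y + 1) ∨ (g i = y + 1 ∧ g (nx (n+1) i) = y) := by
      intro x y hx hxw e1 e2
      obtain ⟨j, hj, hje⟩ := hfree x hx
      have hji : j ≠ i0 := by
        rintro rfl
        rcases hje with ⟨a1, a2⟩ | ⟨a1, a2⟩ <;> rcases hedge with ⟨b1, b2⟩ | ⟨b1, b2⟩ <;> omega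
      rcases lt_or_gt_of_ne hji with h1 | h1
      · obtain ⟨c1, c2⟩ := ge j h1
        refine ⟨j, by omega, ?_⟩
        rw [c1, c2]
        rcases hje with ⟨a1, a2⟩ | ⟨a1, a2⟩
        · left; rw [a1, a2]; exact ⟨e1, e2⟩
        · right; rw [a1, a2]; exact ⟨e2, e1⟩
      · obtain ⟨c1, c2⟩ := gl j h1 hj
        refine ⟨j+1, by omega, ?_⟩
        rw [c1, c2]
        rcases hje with ⟨a1, a2⟩ | ⟨a1, a2⟩
        · left; rw [a1, a2]; exact ⟨e1, e2⟩
        · right; rw [a1, a2]; exact ⟨e2, e1⟩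
    rcases hF' u hu with h1 | h1 | ⟨h1, h2⟩ | ⟨h1, h2⟩
    · -- edge (w-1, w)
      rcases hedge with ⟨a1, a2⟩ | ⟨a1, a2⟩
      · refine ⟨i0, by omega, Or.inl ?_⟩
        rw [n2, g2, g1 i0 le_rfl, a1, iw1]
        omega
      · refine ⟨i0+1, by omega, Or.inr ?_⟩
        rw [gn, g2, a2, iw1]
        omega
    · rcases hedge with ⟨a1, a2⟩ | ⟨a1, a2⟩
      · refine ⟨i0+1, by omega, Or.inl ?_⟩
        rw [gn, g2, a2, iw2]
        omega
      · refine ⟨i0, by omega, Or.inr ?_⟩
        rw [n2, g2, g1 i0 le_rfl, a1, iw2]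
        omega
    · exact surv u u h2 (by omega) (by unfold ins; split_ifs <;> omega)
        (by unfold ins; split_ifs <;> omega)
    · exact surv (u-1) u h2 (by omega) (by unfold ins; split_ifs <;> omega)
        (by unfold ins; split_ifs <;> omega)

end Pool.Agent.HamPaths6b8b27
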