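import Pool.Agent.HamPaths6b8b27.Core

set_option autoImplicit false
set_option maxHeartbeats 4000000
set_option linter.unusedVariables false

namespace Pool.Agent.HamPaths6b8b27

theorem ins_lo {w v : ℕ} (h : v < w) : ins w v = v := if_pos h

theorem ins_hi {w v : ℕ} (h : w ≤ v) : ins w v = v + 1 := if_neg (by omega)

theorem r1_a {n v : ℕ} (hn : 9 ≤ n) (h : v = 0) : r1 n v = 0 := by
  unfold r1
  split_ifs <;> omega

theorem r1_b {n v : ℕ} (hn : 9 ≤ n) (h : v = 1) : r1 n v = n - 1 := by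
  unfold r1
  split_ifs <;> omega

theorem r1_c {n v : ℕ} (hn : 9 ≤ n) (h : v = 2) : r1 n v = 3 := by
  unfold r1
  split_ifs <;> omega

theorem r1_d {n v : ℕ} (hn : 9 ≤ n) (h : v = 3) : r1 n v = 4 := by
  unfold r1
  split_ifs <;> omega

theorem r1_e {n v : ℕ} (hn : 9 ≤ n) (h : 4 ≤ v ∧ v + 3 ≤ n) : r1 n v = n + 2 - v := by
  unfold r1
  split_ifs <;> omega

theorem r1_f {n v : ℕ} (hn : 9 ≤ n) (h : v + 2 = n) : r1 n v = 2 := by
  unfold r1
  split_ifs <;> omega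

theorem r1_g {n v : ℕ} (hn : 9 ≤ n) (h : v + 1 = n) : r1 n v = 1 := by
  unfold r1
  split_ifs <;> omega

theorem r2_a {n v : ℕ} (hn : 9 ≤ n) (h : v = 0) : r2 n v = 0 := by
  unfold r2
  split_ifs <;> omega

theorem r2_b {n v : ℕ} (hn : 9 ≤ n) (h : v = 1) : r2 n v = n - 6 := by
  unfold r2
  split_ifs <;> omega

theorem r2_c {n v : ℕ} (hn : 9 ≤ n) (h : v = 2) : r2 n v = n - 1 := by
  unfold r2
  split_ifs <;> omega

theorem r2_d {n v : ℕ} (hn : 9 ≤ n) (h : v = 3) : r2 n v = n - 2 := by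
  unfold r2
  split_ifs <;> omega

theorem r2_e {n v : ℕ} (hn : 9 ≤ n) (h : v = 4) : r2 n v = n - 4 := by
  unfold r2
  split_ifs <;> omega

theorem r2_f {n v : ℕ} (hn : 9 ≤ n) (h : 5 ≤ v ∧ v + 3 ≤ n) : r2 n v = v - 4 := by
  unfold r2
  split_ifs <;> omega

theorem r2_g {n v : ℕ} (hn : 9 ≤ n) (h : v + 2 = n) : r2 n v = n - 3 := by
  unfold r2
  split_ifs <;> omega

theorem r2_h {n v : ℕ} (hn : 9 ≤ n) (h : v + 1 = n) : r2 n v = n - 5 := by
  unfold r2
  split_ifs <;> omega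

theorem r3_a {n v : ℕ} (hn : 9 ≤ n) (h : v = 0) : r3 n v = 0 := by
  unfold r3
  split_ifs <;> omega

theorem r3_b {n v : ℕ} (hn : 9 ≤ n) (h : v = 1) : r3 n v = n - 3 := by
  unfold r3
  split_ifs <;> omega

theorem r3_c {n v : ℕ} (hn : 9 ≤ n) (h : v = 2) : r3 n v = 4 := by
  unfold r3
  split_ifs <;> omega

theorem r3_d {n v : ℕ} (hn : 9 ≤ n) (h : v = 3) : r3 n v = n - 1 := by
  unfold r3
  split_ifs <;> omega

theorem r3_e {n v : ℕ} (hn : 9 ≤ n) (h : v = 4) : r3 n v = 1 := by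
  unfold r3
  split_ifs <;> omega

theorem r3_f {n v : ℕ} (hn : 9 ≤ n) (h : v = 5) : r3 n v = n - 2 := by
  unfold r3
  split_ifs <;> omega

theorem r3_g {n v : ℕ} (hn : 9 ≤ n) (h : 6 ≤ v ∧ v + 3 ≤ n) : r3 n v = v - 1 := by
  unfold r3
  split_ifs <;> omega

theorem r3_h {n v : ℕ} (hn : 9 ≤ n) (h : v + 2 = n) : r3 n v = 2 := by
  unfold r3
  split_ifs <;> omega

theorem r3_i {n v : ℕ} (hn : 9 ≤ n) (h : v + 1 = n) : r3 n v = 3 := by
  unfold r3
  split_ifs <;> omega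

theorem rg_a {n k v : ℕ} (hk : 4 ≤ k) (hn : k + 4 ≤ n) (h : v = 0) : rg n k v = 0 := by
  unfold rg
  split_ifs <;> omega

theorem rg_b {n k v : ℕ} (hk : 4 ≤ k) (hn : k + 4 ≤ n) (h : v = 1) : rg n k v = n - k - 1 := by
  unfold rg
  split_ifs <;> omega

theorem rg_c {n k v : ℕ} (hk : 4 ≤ k) (hn : k + 4 ≤ n) (h : 2 ≤ v ∧ v + 2 ≤ k) : rg n k v = n - v := by
  unfold rg
  split_ifs <;> omega

theorem rg_d {n k v : ℕ} (hk : 4 ≤ k) (hn : k + 4 ≤ n) (h : v + 1 = k) : rg n k v = n - k - 2 := by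
  unfold rg
  split_ifs <;> omega

theorem rg_e {n k v : ℕ} (hk : 4 ≤ k) (hn : k + 4 ≤ n) (h : v = k) : rg n k v = n - 1 := by
  unfold rg
  split_ifs <;> omega

theorem rg_f {n k v : ℕ} (hk : 4 ≤ k) (hn : k + 4 ≤ n) (h : v = k + 1) : rg n k v = n - k := by
  unfold rg
  split_ifs <;> omega

theorem rg_g {n k v : ℕ} (hk : 4 ≤ k) (hn : k + 4 ≤ n) (h : k + 2 ≤ v ∧ v + 2 ≤ n) : rg n k v = v - k - 1 := by
  unfold rg
  split_ifs <;> omega

theorem rg_h {n k v : ℕ} (hk : 4 ≤ k) (hn : k + 4 ≤ n) (h : v + 1 = n) : rg n k v = n - k + 1 := by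
  unfold rg
  split_ifs <;> omega

theorem r1_ins {n w v : ℕ} (hn : 9 ≤ n) (h1 : 5 ≤ w) (h2 : w + 3 ≤ n) (hv : v < n) :
    r1 (n+1) (ins w v) = ins (n + 3 - w) (r1 n v) := by
  have hn1 : 9 ≤ n + 1 := by omega
  obtain h|h|h|h|h|h|h : v = 0 ∨ v = 1 ∨ v = 2 ∨ v = 3 ∨ (4 ≤ v ∧ v + 3 ≤ n) ∨ v + 2 = n ∨ v + 1 = n := by omega
  · rw [r1_a hn h, ins_lo (by omega : v < w), r1_a hn1 (by omega)]
    unfold ins
    split_ifs <;> omega
  · rw [r1_b hn h, ins_lo (by omega : v < w), r1_b hn1 (by omega)]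
    unfold ins
    split_ifs <;> omega
  · rw [r1_c hn h, ins_lo (by omega : v < w), r1_c hn1 (by omega)]
    unfold ins
    split_ifs <;> omega
  · rw [r1_d hn h, ins_lo (by omega : v < w), r1_d hn1 (by omega)]
    unfold ins
    split_ifs <;> omega
  · rw [r1_e hn h]
    rcases lt_or_ge v w with h' | h'
    · rw [ins_lo h', r1_e hn1 (by omega)]
      unfold ins
      split_ifs <;> omega
    · rw [ins_hi h', r1_e hn1 (by omega)]
      unfold ins
      split_ifs <;> omega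
  · rw [r1_f hn h, ins_hi (by omega : w ≤ v), r1_f hn1 (by omega)]
    unfold ins
    split_ifs <;> omega
  · rw [r1_g hn h, ins_hi (by omega : w ≤ v), r1_g hn1 (by omega)]
    unfold ins
    split_ifs <;> omega

theorem r2_ins {n w v : ℕ} (hn : 9 ≤ n) (h1 : 6 ≤ w) (h2 : w + 3 ≤ n) (hv : v < n) :
    r2 (n+1) (ins w v) = ins (w - 4) (r2 n v) := by
  have hn1 : 9 ≤ n + 1 := by omega
  obtain h|h|h|h|h|h|h|h : v = 0 ∨ v = 1 ∨ v = 2 ∨ v = 3 ∨ v = 4 ∨ (5 ≤ v ∧ v + 3 ≤ n) ∨ v + 2 = n ∨ v + 1 = n := by omega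
  · rw [r2_a hn h, ins_lo (by omega : v < w), r2_a hn1 (by omega)]
    unfold ins
    split_ifs <;> omega
  · rw [r2_b hn h, ins_lo (by omega : v < w), r2_b hn1 (by omega)]
    unfold ins
    split_ifs <;> omega
  · rw [r2_c hn h, ins_lo (by omega : v < w), r2_c hn1 (by omega)]
    unfold ins
    split_ifs <;> omega
  · rw [r2_d hn h, ins_lo (by omega : v < w), r2_d hn1 (by omega)]
    unfold ins
    split_ifs <;> omega
  · rw [r2_e hn h, ins_lo (by omega : v < w), r2_e hn1 (by omega)]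
    unfold ins
    split_ifs <;> omega
  · rw [r2_f hn h]
    rcases lt_or_ge v w with h' | h'
    · rw [ins_lo h', r2_f hn1 (by omega)]
      unfold ins
      split_ifs <;> omega
    · rw [ins_hi h', r2_f hn1 (by omega)]
      unfold ins
      split_ifs <;> omega
  · rw [r2_g hn h, ins_hi (by omega : w ≤ v), r2_g hn1 (by omega)]
    unfold ins
    split_ifs <;> omega
  · rw [r2_h hn h, ins_hi (by omega : w ≤ v), r2_h hn1 (by omega)]
    unfold ins
    split_ifs <;> omega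

theorem r3_ins {n w v : ℕ} (hn : 9 ≤ n) (h1 : 7 ≤ w) (h2 : w + 3 ≤ n) (hv : v < n) :
    r3 (n+1) (ins w v) = ins (w - 1) (r3 n v) := by
  have hn1 : 9 ≤ n + 1 := by omega
  obtain h|h|h|h|h|h|h|h|h : v = 0 ∨ v = 1 ∨ v = 2 ∨ v = 3 ∨ v = 4 ∨ v = 5 ∨ (6 ≤ v ∧ v + 3 ≤ n) ∨ v + 2 = n ∨ v + 1 = n := by omega
  · rw [r3_a hn h, ins_lo (by omega : v < w), r3_a hn1 (by omega)]
    unfold ins
    split_ifs <;> omega
  · rw [r3_b hn h, ins_lo (by omega : v < w), r3_b hn1 (by omega)]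
    unfold ins
    split_ifs <;> omega
  · rw [r3_c hn h, ins_lo (by omega : v < w), r3_c hn1 (by omega)]
    unfold ins
    split_ifs <;> omega
  · rw [r3_d hn h, ins_lo (by omega : v < w), r3_d hn1 (by omega)]
    unfold ins
    split_ifs <;> omega
  · rw [r3_e hn h, ins_lo (by omega : v < w), r3_e hn1 (by omega)]
    unfold ins
    split_ifs <;> omega
  · rw [r3_f hn h, ins_lo (by omega : v < w), r3_f hn1 (by omega)]
    unfold ins
    split_ifs <;> omega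
  · rw [r3_g hn h]
    rcases lt_or_ge v w with h' | h'
    · rw [ins_lo h', r3_g hn1 (by omega)]
      unfold ins
      split_ifs <;> omega
    · rw [ins_hi h', r3_g hn1 (by omega)]
      unfold ins
      split_ifs <;> omega
  · rw [r3_h hn h, ins_hi (by omega : w ≤ v), r3_h hn1 (by omega)]
    unfold ins
    split_ifs <;> omega
  · rw [r3_i hn h, ins_hi (by omega : w ≤ v), r3_i hn1 (by omega)]
    unfold ins
    split_ifs <;> omega

theorem rg_insB {n k w v : ℕ} (hk : 4 ≤ k) (h1 : k + 3 ≤ w) (h2 : w + 2 ≤ n) (hv : v < n) :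
    rg (n+1) k (ins w v) = ins (w - k - 1) (rg n k v) := by
  have hn : k + 4 ≤ n := by omega
  have hn1 : k + 4 ≤ n + 1 := by omega
  obtain h|h|h|h|h|h|h|h : v = 0 ∨ v = 1 ∨ (2 ≤ v ∧ v + 2 ≤ k) ∨ v + 1 = k ∨ v = k ∨ v = k + 1 ∨ (k + 2 ≤ v ∧ v + 2 ≤ n) ∨ v + 1 = n := by omega
  · rw [rg_a hk hn h, ins_lo (by omega : v < w), rg_a hk hn1 (by omega)]
    unfold ins
    split_ifs <;> omega
  · rw [rg_b hk hn h, ins_lo (by omega : v < w), rg_b hk hn1 (by omega)]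
    unfold ins
    split_ifs <;> omega
  · rw [rg_c hk hn h, ins_lo (by omega : v < w), rg_c hk hn1 (by omega)]
    unfold ins
    split_ifs <;> omega
  · rw [rg_d hk hn h, ins_lo (by omega : v < w), rg_d hk hn1 (by omega)]
    unfold ins
    split_ifs <;> omega
  · rw [rg_e hk hn h, ins_lo (by omega : v < w), rg_e hk hn1 (by omega)]
    unfold ins
    split_ifs <;> omega
  · rw [rg_f hk hn h, ins_lo (by omega : v < w), rg_f hk hn1 (by omega)]
    unfold ins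
    split_ifs <;> omega
  · rw [rg_g hk hn h]
    rcases lt_or_ge v w with h' | h'
    · rw [ins_lo h', rg_g hk hn1 (by omega)]
      unfold ins
      split_ifs <;> omega
    · rw [ins_hi h', rg_g hk hn1 (by omega)]
      unfold ins
      split_ifs <;> omega
  · rw [rg_h hk hn h, ins_hi (by omega : w ≤ v), rg_h hk hn1 (by omega)]
    unfold ins
    split_ifs <;> omega

theorem rg_insA {n k w v : ℕ} (hn1 : k + 4 ≤ n + 1) (h1 : 3 ≤ w) (h2 : w + 3 ≤ k) (hv : v < n) :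
    rg (n+1) k (ins w v) = ins (n + 1 - w) (rg n (k-1) v) := by
  have hk : 4 ≤ k := by omega
  have hk1 : 4 ≤ k - 1 := by omega
  have hn : k - 1 + 4 ≤ n := by omega
  obtain h|h|h|h|h|h|h|h : v = 0 ∨ v = 1 ∨ (2 ≤ v ∧ v + 2 ≤ k - 1) ∨ v + 1 = k - 1 ∨ v = k - 1 ∨ v = k - 1 + 1 ∨ (k - 1 + 2 ≤ v ∧ v + 2 ≤ n) ∨ v + 1 = n := by omega
  · rw [rg_a hk1 hn h, ins_lo (by omega : v < w), rg_a hk hn1 (by omega)]
    unfold ins
    split_ifs <;> omega
  · rw [rg_b hk1 hn h, ins_lo (by omega : v < w), rg_b hk hn1 (by omega)]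
    unfold ins
    split_ifs <;> omega
  · rw [rg_c hk1 hn h]
    rcases lt_or_ge v w with h' | h'
    · rw [ins_lo h', rg_c hk hn1 (by omega)]
      unfold ins
      split_ifs <;> omega
    · rw [ins_hi h', rg_c hk hn1 (by omega)]
      unfold ins
      split_ifs <;> omega
  · rw [rg_d hk1 hn h, ins_hi (by omega : w ≤ v), rg_d hk hn1 (by omega)]
    unfold ins
    split_ifs <;> omega
  · rw [rg_e hk1 hn h, ins_hi (by omega : w ≤ v), rg_e hk hn1 (by omega)]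
    unfold ins
    split_ifs <;> omega
  · rw [rg_f hk1 hn h, ins_hi (by omega : w ≤ v), rg_f hk hn1 (by omega)]
    unfold ins
    split_ifs <;> omega
  · rw [rg_g hk1 hn h, ins_hi (by omega : w ≤ v), rg_g hk hn1 (by omega)]
    unfold ins
    split_ifs <;> omega
  · rw [rg_h hk1 hn h, ins_hi (by omega : w ≤ v), rg_h hk hn1 (by omega)]
    unfold ins
    split_ifs <;> omega

end Pool.Agent.HamPaths6b8b27
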