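import Pool.Agent.HamPaths6b8b27.Ins
import Pool.Agent.HamPaths6b8b27.HC

set_option autoImplicit false
set_option maxHeartbeats 4000000
set_option linter.unusedVariables false

namespace Pool.Agent.HamPaths6b8b27

theorem ext_rk {n k w : ℕ} (hn : 9 ≤ n) (hk : 1 ≤ k) (hk' : k + 4 ≤ n + 1) (hw1 : 1 ≤ w)
    (h1 : fr (n+1) k (w-1)) (h2 : fr (n+1) k w) :
    Ext n w (rk n (del w k)) (rk (n+1) k) := by
  unfold fr at h1 h2
  have hn1 : 9 ≤ n + 1 := by omega
  by_cases k1 : k = 1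
  · subst k1
    have e0 : del w 1 = 1 := by unfold del; split_ifs <;> omega
    rw [e0]
    have e1 : ∀ m v, rk m 1 v = r1 m v := fun m v => by unfold rk; simp
    have hw5 : 5 ≤ w := by omega
    have hwn : w + 3 ≤ n := by omega
    have ew : r1 (n+1) w = n + 3 - w := by rw [r1_e hn1 (by omega)]
    refine ⟨fun v hv => ?_, Or.inr ?_⟩
    · rw [e1, e1, e1, ew]
      exact r1_ins hn hw5 hwn hv
    · rw [e1, e1, e1, ew, r1_e hn (by omega), r1_e hn (by omega)]
      omega
  by_cases k2 : k = 2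
  · subst k2
    have e0 : del w 2 = 2 := by unfold del; split_ifs <;> omega
    rw [e0]
    have e1 : ∀ m v, rk m 2 v = r2 m v := fun m v => by unfold rk; simp
    have hw5 : 6 ≤ w := by omega
    have hwn : w + 3 ≤ n := by omega
    have ew : r2 (n+1) w = w - 4 := by rw [r2_f hn1 (by omega)]
    refine ⟨fun v hv => ?_, Or.inl ?_⟩
    · rw [e1, e1, e1, ew]
      exact r2_ins hn hw5 hwn hv
    · rw [e1, e1, e1, ew, r2_f hn (by omega), r2_f hn (by omega)]
      omega
  by_cases k3 : k = 3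
  · subst k3
    have e0 : del w 3 = 3 := by unfold del; split_ifs <;> omega
    rw [e0]
    have e1 : ∀ m v, rk m 3 v = r3 m v := fun m v => by unfold rk; simp
    have hw5 : 7 ≤ w := by omega
    have hwn : w + 3 ≤ n := by omega
    have ew : r3 (n+1) w = w - 1 := by rw [r3_g hn1 (by omega)]
    refine ⟨fun v hv => ?_, Or.inl ?_⟩
    · rw [e1, e1, e1, ew]
      exact r3_ins hn hw5 hwn hv
    · rw [e1, e1, e1, ew, r3_g hn (by omega), r3_g hn (by omega)]
      omega
  have e1 : ∀ m v, rk m k v = rg m k v := fun m v => by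
    unfold rk
    rw [if_neg (by omega), if_neg (by omega), if_neg (by omega)]
  by_cases hwk : w < k
  · have e0 : del w k = k - 1 := by unfold del; split_ifs <;> omega
    rw [e0]
    have e2 : ∀ m v, rk m (k-1) v = rg m (k-1) v := fun m v => by
      unfold rk
      rw [if_neg (by omega), if_neg (by omega), if_neg (by omega)]
    have ew : rg (n+1) k w = n + 1 - w := by rw [rg_c (by omega) (by omega) (by omega)]
    refine ⟨fun v hv => ?_, Or.inr ?_⟩
    · rw [e1, e1, e2, ew]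
      exact rg_insA hk' (by omega) (by omega) hv
    · rw [e1, e2, e2, ew, rg_c (by omega) (by omega) (by omega),
        rg_c (by omega) (by omega) (by omega)]
      omega
  · have e0 : del w k = k := by unfold del; split_ifs <;> omega
    rw [e0]
    have ew : rg (n+1) k w = w - k - 1 := by rw [rg_g (by omega) (by omega) (by omega)]
    refine ⟨fun v hv => ?_, Or.inl ?_⟩
    · rw [e1, e1, e1, ew]
      exact rg_insB (by omega) (by omega) (by omega) hv
    · rw [e1, e1, e1, ew, rg_g (by omega) (by omega) (by omega),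
        rg_g (by omega) (by omega) (by omega)]
      omega

theorem sub_ins {n w v o : ℕ} (hv : v < n) (hw1 : 1 ≤ w) (hwn : w < n) (ho : o < n + 1)
    (hwo : w ≠ o) (hwo' : w + 1 ≠ o) :
    sub (n+1) (ins w v) o = ins (sub (n+1) w o) (sub n v (del w o)) := by
  rcases lt_or_gt_of_ne hwo with h | h
  · have e : del w o = o - 1 := by unfold del; split_ifs <;> omega
    rw [e]
    unfold sub ins
    split_ifs <;> omega
  · have e : del w o = o := by unfold del; split_ifs <;> omega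
    rw [e]
    unfold sub ins
    split_ifs <;> omega

theorem sub_w {n w o : ℕ} (hw1 : 1 ≤ w) (hwn : w < n) (ho : o < n + 1)
    (hwo : w ≠ o) (hwo' : w + 1 ≠ o) :
    sub n w (del w o) = sub (n+1) w o ∧ sub n (w-1) (del w o) = sub (n+1) w o - 1 ∧
    sub (n+1) (w-1) o = sub (n+1) w o - 1 ∧ 1 ≤ sub (n+1) w o := by
  unfold sub del
  split_ifs <;> omega

theorem ext_sub {n k w o : ℕ} (hn : 9 ≤ n) (hk : 1 ≤ k) (hk' : k + 4 ≤ n + 1) (hw1 : 1 ≤ w)
    (hwn : w < n) (ho : o < n + 1) (hwo : w ≠ o) (hwo' : w + 1 ≠ o)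
    (h1 : fr (n+1) k (sub (n+1) (w-1) o)) (h2 : fr (n+1) k (sub (n+1) w o)) :
    Ext n w (fun v => rk n (del (sub (n+1) w o) k) (sub n v (del w o)))
      (fun v => rk (n+1) k (sub (n+1) v o)) := by
  obtain ⟨e1, e2, e3, e4⟩ := sub_w hw1 hwn ho hwo hwo'
  rw [e3] at h1
  obtain ⟨ha, hb⟩ := ext_rk hn hk hk' e4 h1 h2
  refine ⟨fun v hv => ?_, ?_⟩
  · have hs : sub n v (del w o) < n := by unfold sub del; split_ifs <;> omega
    show rk (n+1) k (sub (n+1) (ins w v) o) = ins (rk (n+1) k (sub (n+1) w o)) _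
    rw [sub_ins hv hw1 hwn ho hwo hwo']
    exact ha _ hs
  · show (rk n _ (sub n (w-1) (del w o)) + 1 = rk (n+1) k (sub (n+1) w o) ∧
      rk n _ (sub n w (del w o)) = rk (n+1) k (sub (n+1) w o)) ∨ _
    show _ ∨ (rk n _ (sub n w (del w o)) + 1 = rk (n+1) k (sub (n+1) w o) ∧
      rk n _ (sub n (w-1) (del w o)) = rk (n+1) k (sub (n+1) w o))
    rw [e1, e2]
    exact hb

/-- free edges of the configuration -/
def Fr (n k1 o k2 u : ℕ) : Prop := fr n k1 u ∧ fr n k2 (sub n u o)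

theorem fr_del {n k w u : ℕ} (hw1 : 1 ≤ w) (h1 : fr (n+1) k (w-1)) (h2 : fr (n+1) k w)
    (h : fr (n+1) k u) :
    (u + 1 < w → fr n (del w k) u) ∧ (w < u → fr n (del w k) (u-1)) := by
  unfold fr at *
  by_cases hwk : w < k
  · have e0 : del w k = k - 1 := by unfold del; split_ifs <;> omega
    rw [e0]
    omega
  · have e0 : del w k = k := by unfold del; split_ifs <;> omega
    rw [e0]
    omega

theorem sub_u {n w o u : ℕ} (hw1 : 1 ≤ w) (hwn : w < n) (ho : o < n + 1)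
    (hwo : w ≠ o) (hwo' : w + 1 ≠ o) (hu : u < n + 1) :
    (u + 1 < w → (sub (n+1) u o + 1 < sub (n+1) w o ∧ sub n u (del w o) = sub (n+1) u o) ∨
      (sub (n+1) w o < sub (n+1) u o ∧ sub n u (del w o) = sub (n+1) u o - 1)) ∧
    (w < u → (sub (n+1) u o + 1 < sub (n+1) w o ∧ sub n (u-1) (del w o) = sub (n+1) u o) ∨
      (sub (n+1) w o < sub (n+1) u o ∧ sub n (u-1) (del w o) = sub (n+1) u o - 1)) := by
  rcases lt_or_gt_of_ne hwo with h | h
  · have e : del w o = o - 1 := by unfold del; split_ifs <;> omega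
    rw [e]
    unfold sub
    split_ifs <;> omega
  · have e : del w o = o := by unfold del; split_ifs <;> omega
    rw [e]
    unfold sub
    split_ifs <;> omega

/-- the pair of paths of the configuration -/
def Good (n k1 o k2 : ℕ) : Prop :=
  HC n (rk n k1) (fun v => rk n k2 (sub n v o)) (Fr n k1 o k2)

/-- admissible configurations of two different paths -/
def Valid (n k1 o k2 : ℕ) : Prop :=
  1 ≤ k1 ∧ k1 + 4 ≤ n ∧ 1 ≤ k2 ∧ k2 + 4 ≤ n ∧ o < n ∧ ¬ (o = 0 ∧ k1 = k2) ∧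
    ¬ (k1 + k2 = n ∧ o = k1)

theorem fr_basic {n k w : ℕ} (hk' : k + 4 ≤ n) (h1 : fr n k (w-1)) (h2 : fr n k w) :
    3 ≤ w ∧ w + 3 ≤ n ∧ w ≠ k ∧ w + 1 ≠ k := by
  unfold fr at *
  omega

theorem fr_small {n k w : ℕ} (hk' : k + 4 ≤ n) (h1 : fr n k (w-1)) (h2 : fr n k w) :
    del w k + 4 ≤ n - 1 ∧ (1 ≤ k → 1 ≤ del w k) := by
  unfold fr at *
  unfold del
  split_ifs <;> omega

theorem valid_del {n k1 o k2 w : ℕ} (hn : 9 ≤ n) (hv : Valid (n+1) k1 o k2)
    (h1 : Fr (n+1) k1 o k2 (w-1)) (h2 : Fr (n+1) k1 o k2 w) :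
    Valid n (del w k1) (del w o) (del (sub (n+1) w o) k2) ∧ 1 ≤ w ∧ w < n ∧ w ≠ o ∧ w + 1 ≠ o := by
  obtain ⟨v1, v2, v3, v4, v5, v6, v7⟩ := hv
  obtain ⟨h1a, h1b⟩ := h1
  obtain ⟨h2a, h2b⟩ := h2
  have b1 := fr_basic v2 h1a h2a
  have hwo : w ≠ o := by
    rintro rfl
    have : sub (n+1) w w = 0 := by unfold sub; simp
    rw [this] at h2b
    unfold fr at h2b
    omega
  have hwo' : w + 1 ≠ o := by
    rintro rfl
    have : sub (n+1) w (w+1) = n := by unfold sub; split_ifs <;> omega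
    rw [this] at h2b
    unfold fr at h2b
    omega
  obtain ⟨e1, e2, e3, e4⟩ := sub_w (n := n) (by omega) (by omega) v5 hwo hwo'
  rw [e3] at h1b
  have b2 := fr_basic v4 h1b h2b
  have s1 := fr_small v2 h1a h2a
  have s2 := fr_small v4 h1b h2b
  refine ⟨⟨s1.2 v1, by omega, s2.2 v3, by omega, ?_, ?_, ?_⟩, by omega, by omega, hwo, hwo'⟩
  · unfold del; split_ifs <;> omega
  · rintro ⟨c1, c2⟩
    have ho : o = 0 := by
      unfold del at c1
      split_ifs at c1 <;> omega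
    subst ho
    have e : sub (n+1) w 0 = w := by unfold sub; simp
    rw [e] at c2 b2
    apply v6
    refine ⟨rfl, ?_⟩
    unfold del at c2
    split_ifs at c2 <;> omega
  · rintro ⟨c1, c2⟩
    have ho : o = k1 := by
      unfold del at c2
      split_ifs at c2 <;> omega
    subst ho
    apply v7
    refine ⟨?_, rfl⟩
    unfold del sub at *
    split_ifs at * <;> omega

theorem step {n k1 o k2 w : ℕ} (hn : 9 ≤ n) (hv : Valid (n+1) k1 o k2)
    (h1 : Fr (n+1) k1 o k2 (w-1)) (h2 : Fr (n+1) k1 o k2 w)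
    (h : Good n (del w k1) (del w o) (del (sub (n+1) w o) k2)) : Good (n+1) k1 o k2 := by
  obtain ⟨hv', hw1, hwn, hwo, hwo'⟩ := valid_del hn hv h1 h2
  obtain ⟨v1, v2, v3, v4, v5, v6, v7⟩ := hv
  obtain ⟨u1, u2, u3, u4, u5, u6, u7⟩ := hv'
  obtain ⟨h1a, h1b⟩ := h1
  obtain ⟨h2a, h2b⟩ := h2
  obtain ⟨e1, e2, e3, e4⟩ := sub_w (n := n) hw1 hwn v5 hwo hwo'
  have h1b' := h1b
  rw [e3] at h1b'
  unfold Good at *
  refine HC_ins (by omega) hw1 hwn (ext_rk hn v1 v2 hw1 h1a h2a)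
    (ext_sub hn v3 v4 hw1 hwn v5 hwo hwo' h1b h2b) ?_ ?_ ?_ ?_ h
  · intro u hu v hv huv
    exact rk_inj hn u2 hu hv huv
  · intro u hu v hv huv
    have su : sub n u (del w o) < n := by unfold sub; split_ifs <;> omega
    have sv : sub n v (del w o) < n := by unfold sub; split_ifs <;> omega
    have := rk_inj hn u4 su sv huv
    unfold sub at this
    split_ifs at this <;> omega
  · refine ⟨?_, ?_⟩
    · unfold fr at *
      unfold del
      split_ifs <;> omega
    · rw [e2]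
      have b2 := fr_basic v4 h1b' h2b
      generalize sub (n+1) w o = x at *
      unfold fr at *
      unfold del
      split_ifs <;> omega
  · rintro u ⟨f1, f2⟩
    by_cases c1 : u + 1 = w
    · exact Or.inl c1
    by_cases c2 : u = w
    · exact Or.inr (Or.inl c2)
    have hu : u < n + 1 := by unfold fr at f1; omega
    obtain ⟨d1, d2⟩ := fr_del hw1 h1a h2a f1
    obtain ⟨d3, d4⟩ := fr_del e4 h1b' h2b f2
    obtain ⟨s1, s2⟩ := sub_u hw1 hwn v5 hwo hwo' hu
    rcases lt_or_ge (u+1) w with c3 | c3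
    · refine Or.inr (Or.inr (Or.inl ⟨c3, d1 c3, ?_⟩))
      rcases s1 c3 with ⟨t1, t2⟩ | ⟨t1, t2⟩
      · rw [t2]; exact d3 t1
      · rw [t2]; exact d4 t1
    · have c4 : w < u := by omega
      refine Or.inr (Or.inr (Or.inr ⟨c4, d2 c4, ?_⟩))
      rcases s2 c4 with ⟨t1, t2⟩ | ⟨t1, t2⟩
      · rw [t2]; exact d3 t1
      · rw [t2]; exact d4 t1

end Pool.Agent.HamPaths6b8b27
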